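import Mathlib
import Pool.Agent.N967.H.FinC

/-!
# Báez-Duarte's distance on every vertical line `re s = θ`, `1/2 ≤ θ < 1`

For Dirichlet polynomials `A(s) = ∑_{n ≤ N} a_n n^(-s)` let `d_N(θ)²` be the infimum of
`1 / (2 π) ∫ |1 - ζ(θ + i t) A(θ + i t)|² dt / |θ + i t|²`, and let `Θ` be the supremum of the real parts of the zeros
of the zeta function.

If there are zeros to the right of the line, `d_N(θ)` stays away from zero.  Otherwise `d_N(θ)² log N` tends to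
`∑ m(ρ)² / |ρ|²`, the sum over the distinct zeros ON the line, `m(ρ)` the multiplicity; and if `Θ < θ`, then
`d_N(θ)² = N^(-2 (θ - Θ) + o(1))`.  So there is a zero-free half-plane iff `d_N(θ) → 0` for some `θ < 1`.

Project BD6 of helper967 with helpers 82, 136, 199, 327, 340, 346, 403, 438, 475, 495, 644, 650, 767, 849, 953; it rests on
the project BD5 (helpers 27, 72, 73, 75, 80, 136, 157, 163, 278, 325, 429, 455, 457, 494, 572, 603, 717, 769, 803, 814, 832,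
849, 861, 951).
-/

set_option autoImplicit false

namespace Pool.Agent.Results.MP_5a4862_nt.DistanceOnEveryLine

open Complex MeasureTheory Filter Topology

/-- the integrand of the distance on the line `re s = θ` -/
noncomputable def integrand (θ : ℝ) (N : ℕ) (a : ℕ → ℂ) (t : ℝ) : ℝ :=
  ‖1 - riemannZeta (θ + t * I) * ∑ n ∈ Finset.Icc 1 N, a n * (n : ℂ) ^ (-(θ + t * I : ℂ))‖ ^ 2 /
    ‖(θ + t * I : ℂ)‖ ^ 2

/-- `d_N(θ)²`, the square of the distance on the line `re s = θ` (with values in `[0, ∞]`) -/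
noncomputable def distSq (θ : ℝ) (N : ℕ) : ENNReal :=
  ⨅ a : ℕ → ℂ, ENNReal.ofReal (1 / (2 * Real.pi)) * ∫⁻ t : ℝ, ENNReal.ofReal (integrand θ N a t)

/-- the distinct zeros on the line `re s = θ` -/
abbrev Zero (θ : ℝ) : Type := {ρ : ℂ // riemannZeta ρ = 0 ∧ ρ.re = θ}

/-- the multiplicity of a zero -/
noncomputable def mult (ρ : ℂ) : ℕ := analyticOrderNatAt riemannZeta ρ

/-- the sum of `m(ρ)² / |ρ|²` over the distinct zeros on the line `re s = θ` -/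
noncomputable def lineSum (θ : ℝ) : ℝ := ∑' ρ : Zero θ, (mult ρ : ℝ) ^ 2 / ‖(ρ : ℂ)‖ ^ 2

/-- the supremum of the real parts of the zeros of the zeta function -/
noncomputable def Theta : ℝ := sSup {x : ℝ | ∃ ρ : ℂ, riemannZeta ρ = 0 ∧ ρ.re = x}

/-- there are no zeros to the right of the line `re s = θ` -/
def NoZerosRight (θ : ℝ) : Prop := ∀ ρ : ℂ, riemannZeta ρ = 0 → ρ.re ≤ θ

/-- there is a zero-free half-plane `re s ≥ σ₀`, `1/2 < σ₀ < 1` (Q1) -/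
def ZeroFreeHalfPlane : Prop := ∃ σ₀ : ℝ, 1 / 2 < σ₀ ∧ σ₀ < 1 ∧ ∀ s : ℂ, σ₀ ≤ s.re → riemannZeta s ≠ 0

theorem result :
    (∀ θ : ℝ, 1 / 2 ≤ θ → θ < 1 →
      (¬ NoZerosRight θ → ∃ c : ℝ, 0 < c ∧ ∀ N : ℕ, ENNReal.ofReal c ≤ distSq θ N) ∧
      (NoZerosRight θ → (∀ (N : ℕ) (a : ℕ → ℂ), Integrable (integrand θ N a)) ∧
        Summable (fun ρ : Zero θ => (mult ρ : ℝ) ^ 2 / ‖(ρ : ℂ)‖ ^ 2) ∧
        Tendsto (fun N : ℕ => distSq θ N * ENNReal.ofReal (Real.log N)) atTop (𝓝 (ENNReal.ofReal (lineSum θ)))) ∧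
      (NoZerosRight θ ↔ Tendsto (distSq θ) atTop (𝓝 0)) ∧
      (NoZerosRight θ ↔ ∃ ℓ : ENNReal, ℓ ≠ ⊤ ∧
        Tendsto (fun N : ℕ => distSq θ N * ENNReal.ofReal (Real.log N)) atTop (𝓝 ℓ)) ∧
      (NoZerosRight θ ↔ ∀ ε : ℝ, 0 < ε → ∃ N : ℕ, distSq θ N < ENNReal.ofReal ε) ∧
      (Theta < θ →
        Tendsto (fun N : ℕ => Real.log (distSq θ N).toReal / Real.log N) atTop (𝓝 (-(2 * (θ - Theta)))))) ∧
    1 / 2 ≤ Theta ∧
    (ZeroFreeHalfPlane ↔ Theta < 1) ∧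
    (ZeroFreeHalfPlane ↔ ∃ θ : ℝ, 1 / 2 ≤ θ ∧ θ < 1 ∧ Tendsto (distSq θ) atTop (𝓝 0)) ∧
    (ZeroFreeHalfPlane ↔ ∃ θ : ℝ, 1 / 2 ≤ θ ∧ θ < 1 ∧
      Tendsto (fun N : ℕ => distSq θ N * ENNReal.ofReal (Real.log N)) atTop (𝓝 0)) ∧
    (ZeroFreeHalfPlane ↔ ∃ θ c : ℝ, 1 / 2 ≤ θ ∧ θ < 1 ∧ 0 < c ∧
      ∃ᶠ N : ℕ in atTop, distSq θ N ≤ ENNReal.ofReal ((N : ℝ) ^ (-c))) ∧
    ((Theta < 1 ∧ ∃ ρ : ℂ, riemannZeta ρ = 0 ∧ ρ.re = Theta) ↔
      ∃ (θ : ℝ) (ℓ : ENNReal), 1 / 2 ≤ θ ∧ θ < 1 ∧ ℓ ≠ 0 ∧ ℓ ≠ ⊤ ∧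
        Tendsto (fun N : ℕ => distSq θ N * ENNReal.ofReal (Real.log N)) atTop (𝓝 ℓ)) :=
  Pool.Agent.N967.H.Fin.final

end Pool.Agent.Results.MP_5a4862_nt.DistanceOnEveryLine
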