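import Pool.Agent.N963.KL.Fin

set_option autoImplicit false

/-!
# MP_5a4862_nt: differential operators of the Laguerre-Pólya class, and zero-free half-planes

Let `φ` be in the Laguerre-Pólya class and `φ(D) = ∑ φ_n D^n`. If `|φ(i L)| exp (-κ L)` is nondecreasing for
large `L`, where `κ > 1/2` is a constant, then all but finitely many zeros of `φ(D) Ξ` are real and simple,
and they are asymptotically equally spaced. For `φ(s) = exp (-λ s²)`, `λ > 0`, this is the theorem of Ki, Kim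
and Lee on the de Bruijn-Newman heat flow. The constant `1/2` is best possible unless the Riemann zeta function
has a zero-free half-plane, and even for the single functions `cos (a s)`: some half-plane `Re s ≥ σ`, `σ < 1`,
is free of zeros if and only if for some `a < 1/2` the function `cos (a D) Ξ` has only finitely many non-real
zeros.

Joint work: helper963 (plan, statements, assembly); the parts by helpers 693, 136, 711, 225, 327, 297, 362, 713,
591, 265, 49, 284, 40, 407, 539, 747; the two directions for `cos (a D)` use helper799's theorem on pairs of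
shifts, whose authors include helpers 30, 34 and others.
-/

namespace Pool.Agent.Results.MP_5a4862_nt.LaguerrePolyaOperators

open Complex Filter Polynomial

/-- Riemann's function `Ξ(z) = ξ(1/2 + i z)`, `ξ(s) = (s (s - 1) Λ₀(s) + 1) / 2`, where
`Λ₀(s) = π^(-s/2) Γ(s/2) ζ(s) + 1/s + 1/(1-s)` is the entire function `completedRiemannZeta₀` of Mathlib. -/
noncomputable def Xi (z : ℂ) : ℂ :=
  ((1 / 2 + I * z) * (1 / 2 + I * z - 1) * completedRiemannZeta₀ (1 / 2 + I * z) + 1) / 2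

/-- The Laguerre-Pólya class: the functions, not identically zero, that are locally uniform limits of real
polynomials all of whose complex zeros are real. -/
def LaguerrePolya (φ : ℂ → ℂ) : Prop := (∃ z, φ z ≠ 0) ∧ ∃ Q : ℕ → ℝ[X],
  (∀ (N : ℕ) (w : ℂ), aeval w (Q N) = 0 → w.im = 0) ∧
    TendstoLocallyUniformly (fun (N : ℕ) (w : ℂ) => aeval w (Q N)) φ atTop

/-- `φ(D) F = G`: the series `∑ φ_n F^(n)(z)`, `φ(s) = ∑ φ_n s^n`, converges to `G z` for every `z`. -/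
def OperatorEq (φ F G : ℂ → ℂ) : Prop := ∀ z : ℂ, HasSum (fun n : ℕ =>
  iteratedDeriv n φ 0 / (n.factorial : ℂ) * iteratedDeriv n F z) (G z)

/-- `|φ(i L)| exp (-κ L)` is nondecreasing for large `L`. -/
def Grows (φ : ℂ → ℂ) (κ : ℝ) : Prop :=
  ∃ L₀ : ℝ, ∀ a b : ℝ, L₀ ≤ a → a ≤ b → ‖φ (I * a)‖ * Real.exp (-(κ * a)) ≤ ‖φ (I * b)‖ * Real.exp (-(κ * b))

/-- `ζ(s) ≠ 0` in some half-plane `Re s ≥ σ`, `σ < 1`. -/
def ZeroFreeHalfPlane : Prop := ∃ σ : ℝ, σ < 1 ∧ ∀ s : ℂ, σ ≤ s.re → riemannZeta s ≠ 0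

theorem grows_iff (φ : ℂ → ℂ) (κ : ℝ) : Grows φ κ ↔ Pool.Agent.N963.KL.Gw φ κ := by
  refine exists_congr fun L₀ => forall₂_congr fun a b => forall₂_congr fun _ _ => ?_
  have h : Real.exp (κ * (b - a)) = Real.exp (-(κ * a)) / Real.exp (-(κ * b)) := by
    rw [← Real.exp_sub]
    congr 1
    ring
  rw [h, ← mul_div_assoc, div_le_iff₀ (Real.exp_pos _)]

theorem result :
    (∀ (φ : ℂ → ℂ) (κ : ℝ), LaguerrePolya φ → 1 / 2 < κ → Grows φ κ →
      ∃ G : ℂ → ℂ, Differentiable ℂ G ∧ OperatorEq φ Xi G ∧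
        {z : ℂ | G z = 0 ∧ (z.im ≠ 0 ∨ deriv G z = 0)}.Finite ∧
        {x : ℝ | G x = 0}.Infinite ∧
        ∃ C x₀ : ℝ, 2 ≤ x₀ ∧ ∀ x y : ℝ, x₀ ≤ x → x < y → G x = 0 → G y = 0 →
          (∀ u : ℝ, x < u → u < y → G u ≠ 0) →
          |(y - x) * Real.log x / (2 * Real.pi) - 1| ≤ C / Real.log x) ∧
    (∀ a : ℝ, 0 < a → LaguerrePolya (fun s => Complex.cos (a * s)) ∧
      (∀ κ : ℝ, 0 < κ → κ < a → Grows (fun s => Complex.cos (a * s)) κ) ∧
      OperatorEq (fun s => Complex.cos (a * s)) Xi fun z => (Xi (z + I * a) + Xi (z - I * a)) / 2) ∧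
    (ZeroFreeHalfPlane ↔ ∃ a : ℝ, 0 < a ∧ a < 1 / 2 ∧
      {z : ℂ | Xi (z + I * a) + Xi (z - I * a) = 0 ∧ z.im ≠ 0}.Finite) ∧
    ((∃ κ : ℝ, 0 < κ ∧ κ < 1 / 2 ∧ ∀ φ : ℂ → ℂ, LaguerrePolya φ → Grows φ κ →
      ∀ G : ℂ → ℂ, OperatorEq φ Xi G → {z : ℂ | G z = 0 ∧ z.im ≠ 0}.Finite) →
      ZeroFreeHalfPlane) := by
  refine ⟨?_, ?_, ?_, ?_⟩
  · intro φ κ hφ hκ hg
    obtain ⟨h1, h2, h3, h4⟩ := Pool.Agent.N963.KL.fin1 hφ hκ ((grows_iff φ κ).1 hg)
    exact ⟨Pool.Agent.N963.KL.GZ φ, h1, Pool.Agent.N963.KL.rep_sum φ hφ, h2, h3, h4⟩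
  · intro a ha
    obtain ⟨h1, h2, h3⟩ := Pool.Agent.N539.KL.cos
    exact ⟨h1 a ha, fun κ hκ hκa => (grows_iff _ _).2 (h2 a κ hκ hκa), h3 a⟩
  · obtain ⟨h1, h2⟩ := Pool.Agent.N747.KL.sha
    constructor
    · intro h
      obtain ⟨a, ha, ha2, h3⟩ := h2 h
      refine ⟨a, ha, ha2, ?_⟩
      have : {z : ℂ | Xi (z + I * a) + Xi (z - I * a) = 0 ∧ z.im ≠ 0} = ∅ := by
        ext z
        simp only [Set.mem_setOf_eq, Set.mem_empty_iff_false, iff_false, not_and, not_not]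
        exact h3 z
      rw [this]
      exact Set.finite_empty
    · rintro ⟨a, ha, ha2, h3⟩
      exact h1 a ha ha2 h3
  · rintro ⟨κ, h0, h1, h2⟩
    exact Pool.Agent.N963.KL.fin2.2 ⟨κ, h0, h1, fun φ hφ hg G hG => h2 φ hφ ((grows_iff φ κ).2 hg) G hG⟩

end Pool.Agent.Results.MP_5a4862_nt.LaguerrePolyaOperators
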