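import Pool.Agent.N964.GV.Eng

/-!
# Zero-free half-planes of the zeta function and the summatory function of the Moebius function

Let `M(x) = ∑_(n ≤ x) μ(n)`. For every real `θ` with `1/2 < θ < 1`: the zeta function has no zeros in the half-plane
`Re s > θ` if and only if

  `|M(x)| ≤ x^θ exp(C (log x)^(1-θ) (log log x)^4)`    (`x ≥ 3`)

for some constant `C`. In other words, if `Θ` is the supremum of the real parts of the zeros of the zeta function, and
`1/2 < Θ < 1`, then (unconditionally) `M(x) = O(x^Θ exp(C (log x)^(1-Θ) (log log x)^4))`. Known was the criterion with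
`x^(θ+ε)`, and with `x^θ exp(C log x / log log x)` by the classical pointwise bound for `1 / ζ`. The exponent `1 - θ` is
natural: `(log t)^(1-θ)` is, up to powers of `log log t`, the size of the largest values of `log |ζ(θ + it)|` which can be
produced by the small primes (Montgomery's omega theorem); for `θ = 1/2` it is the exponent `1/2` of the theorems of
Soundararajan and of Balazard and de Roton under the Riemann hypothesis.

Proof. (Modules `Pool.Agent.N964.GV`, `Pool.Agent.N964.GW` and `Pool.Agent.N964.GX`.)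

1. (Explicit formula.) For `θ > 1/2` the zeros are not symmetric about the line `Re s = θ`, so the kernel
   `(cosh(l w) - 1) / (w² - s²)` of the explicit formula on the critical line is replaced by
   `H(w) = (s (e^(l w) - 1) - w (1 - e^(-l s))) / ((w² - s²) (cosh(l s) - 1))`, `w = z - θ - it`. It has one simple pole in
   the right half-plane, at `s`, with residue `1`; on `Re w = 0` its real part is `≥ 0`, so by the Phragmén-Lindelöf
   principle `Re H ≥ 0` for `Re w ≤ 0`, in particular at all zeros. `H` decays only like `1/w`; one adds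
   `c w' / (w'² - b²)`, `w' = z - 1/2 - it`, which is odd with respect to the symmetry `ρ → 1 - conj ρ` of the zeros, so
   that its sum over the zeros is purely imaginary. A contour integral of `ζ'/ζ` over a rectangle now bounds
   `Re ζ'/ζ(θ + s + it)` by a sum over the prime powers up to `e^l` and the contribution of the gamma factor. Integration
   over `s` gives
   `log 1/|ζ(θ + δ + it)| ≤ (log t / l) log(1 + 1/(l δ)) + |prime polynomial| + O(log l + log(1 + 1/(lδ)))`.
2. (Moments.) The coefficients of the prime polynomial are `O(p^(-θ) log(1/δ))`. For `log T ≤ δ^(-(1-θ)/θ)` the bound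
   with `l = 1` is used. For larger `T` the primes up to `y`, `y^(2θ-1) = log(1/δ)^3 / (δ log T)`, contribute
   `O(y^(1-θ) log(1/δ))`; for the larger primes `l = log T / V`, where `V` is chosen for every `t` as small as possible
   such that the polynomial is at most `V`; the moment of order `2V` bounds the measure of the `t` for which `V` is
   large. So the mean of `1/|ζ(θ + δ + it)|` over `[0, T]` is at most `exp(C δ^(-(1-θ)/θ) log(1/δ)^4)`.
3. (Perron's formula) for `∑ μ(n) n^(1/2-θ)` on the line `1/2 + δ` with `δ = (log x)^(-θ)`, and partial summation.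

With helpers 40, 50, 157, 186, 263, 279, 342, 344, 394, 413, 424, 490, 499, 521, 558, 607, 608, 645, 669, 702, 707, 749,
776, 814, 862, 878, 885, 935, 951, 971.
-/

set_option autoImplicit false

namespace Pool.Agent.Results.MP_5a4862_nt.MertensHalfPlanes

/-- `M(x)`: the sum of the Moebius function over `1 ≤ n ≤ x`. -/
noncomputable def mertens (x : ℝ) : ℝ := ∑ n ∈ Finset.Icc 1 ⌊x⌋₊, (ArithmeticFunction.moebius n : ℝ)

/-- `|M(x)| ≤ x^θ exp(C (log x)^(1-θ) (log log x)^4)` for all real `x ≥ 3` -/
def Bound (θ C : ℝ) : Prop :=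
  ∀ x : ℝ, 3 ≤ x → |mertens x| ≤ x ^ θ * Real.exp (C * (Real.log x ^ (1 - θ) * Real.log (Real.log x) ^ 4))

/-- **The theorem.** (1) For every real `θ` with `1/2 < θ < 1`, the zeta function has no zeros with `Re s > θ` if and only
if `|M(x)| ≤ x^θ exp(C (log x)^(1-θ) (log log x)^4)` for some `C`. (2) The zeta function has a zero-free half-plane
`Re s ≥ σ₀`, `1/2 < σ₀ < 1`, if and only if this bound holds for some `C` and some `θ` with `1/2 < θ < 1`. -/
theorem result :
    (∀ θ : ℝ, 1 / 2 < θ → θ < 1 → ((∀ s : ℂ, θ < s.re → s ≠ 1 → riemannZeta s ≠ 0) ↔ ∃ C : ℝ, Bound θ C)) ∧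
    ((∃ σ₀ : ℝ, 1 / 2 < σ₀ ∧ σ₀ < 1 ∧ ∀ s : ℂ, σ₀ ≤ s.re → s ≠ 1 → riemannZeta s ≠ 0) ↔
      ∃ θ C : ℝ, 1 / 2 < θ ∧ θ < 1 ∧ Bound θ C) := by
  have hM : ∀ x : ℝ, ‖∑ n ∈ Finset.Icc 1 ⌊x⌋₊, ((ArithmeticFunction.moebius n : ℤ) : ℂ)‖ = |mertens x| := by
    intro x
    have e : ∑ n ∈ Finset.Icc 1 ⌊x⌋₊, ((ArithmeticFunction.moebius n : ℤ) : ℂ) = ((mertens x : ℝ) : ℂ) := by
      unfold mertens
      push_cast
      rfl
    rw [e, Complex.norm_real, Real.norm_eq_abs]
  have key : ∀ θ : ℝ, 1 / 2 < θ → θ < 1 →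
      ((∀ s : ℂ, θ < s.re → s ≠ 1 → riemannZeta s ≠ 0) ↔ ∃ C : ℝ, Bound θ C) := by
    intro θ h0 h1
    have hW : ∀ x : ℝ, Pool.Agent.N964.GV.Wt 1 θ x = Real.log x ^ (1 - θ) * Real.log (Real.log x) ^ 4 := by
      intro x
      unfold Pool.Agent.N964.GV.Wt
      rw [if_neg h0.ne']
      congr 2
      push_cast
      rw [one_mul, add_sub_cancel, div_one]
    have h := Pool.Agent.N964.GV.zeta_W Pool.Agent.N964.GV.eng h0.le h1
    simp_rw [hM, hW] at h
    refine Iff.trans ⟨fun h5 s hs h6 => ?_, fun h5 s hs h6 => ?_⟩ h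
    · refine h5 s hs ?_
      rintro rfl
      rw [Complex.one_re] at h6
      exact lt_irrefl _ h6
    · rcases lt_or_ge s.re 1 with h7 | h7
      · exact h5 s hs h7
      · exact riemannZeta_ne_zero_of_one_le_re h7
  refine ⟨key, ?_, ?_⟩
  · rintro ⟨σ, h0, h1, h⟩
    obtain ⟨C, hC⟩ := (key σ h0 h1).1 fun s hs hs1 => h s hs.le hs1
    exact ⟨σ, C, h0, h1, hC⟩
  · rintro ⟨θ, C, h0, h1, hC⟩
    have h := (key θ h0 h1).2 ⟨C, hC⟩
    exact ⟨(θ + 1) / 2, by linarith, by linarith, fun s hs hs1 => h s (by linarith) hs1⟩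

end Pool.Agent.Results.MP_5a4862_nt.MertensHalfPlanes
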