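import Pool.Agent.N965.LE.Ze
import Pool.Agent.N965.LE.LyL
import Pool.Agent.N965.LE.Rh2

set_option autoImplicit false

/-!
# MP_5a4862_nt: the lowest eigenvalues of Weil's quadratic form and the zero-free half-planes

For `a > 0` let `W a` be Weil's quadratic form on the functions `f` of `L²` of `(-a, a)`, written
through the pole, the archimedean place and the prime powers up to `exp (2 a)`; by Weil's explicit formula
`W a f` is the sum of `M f ρ * conj (M f (1 - conj ρ))` over the nontrivial zeros `ρ` of zeta.  We restrict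
`W a` to the trigonometric polynomials of degree at most `n` (a Hermitian matrix of size `2 n + 1`; the whole
form domain if `n` is infinite).

1. Let `κ > 0` be arbitrary.  Zeta has a zero-free half-plane `Re s > θ` with `θ < 1` if and only if for some
`δ > 0` there are arbitrarily large `a` and degrees `n ≥ κ a / log a` such that the lowest eigenvalue of the
matrix is at least `-exp ((1 - δ) a)`.

2. For every `θ ≥ 1/2` the half-plane `Re s > θ` is free of zeros if and only if for all `δ > 0` there are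
arbitrarily large `a` and `n ≥ κ a / log a` such that the lowest eigenvalue is at least
`-exp ((2 θ - 1 + δ) a)`.

3. Unconditionally, let `β_1 ≥ β_2 ≥ ...` be the real parts of the distinct zeros of zeta to the
right of the critical line (`β_k = 1/2` if there are fewer than `k`; see `beta`).  For every choice of
`n = n(a) ≥ κ a / log a` with `log log n = o(a)`, where `κ > 5 (β_1 - β_k) / 4`, the `k`-th lowest
eigenvalue `λ_k` satisfies `log (max 1 (-λ_k)) / a → 2 β_k - 1` as `a → ∞`; with respect to the norm of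
the form domain the same holds for all `n(a)` up to infinity.  So each distinct zero off the line gives
exactly one negative eigenvalue, and its real part is the exponent of growth.

4. If `k` distinct zeros are to the right of the critical line, then `W a` is negative on a space of
dimension `k` for all large `a` and all `n ≥ a / log a`; otherwise this never happens.

5. If all zeros are on the critical line, the lowest eigenvalue is at least
`exp (-(C n log n + exp (C a)))`, and on the whole form domain `W a` is at least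
`exp (-exp (exp (C a)))` times the square of its norm.
-/

namespace Pool.Agent.Results.MP_5a4862_nt.SpectralDichotomy

open Complex MeasureTheory Filter
open Pool.Agent.N965

/-- The Mellin transform of `f` in the logarithmic variable, centred at `1/2`. -/
noncomputable def M (f : ℝ → ℂ) (s : ℂ) : ℂ := ∫ x : ℝ, f x * cexp ((s - 1 / 2) * x)

/-- The square of the norm of `f` in `L²`. -/
noncomputable def N (f : ℝ → ℂ) : ℝ := ∫ x : ℝ, ‖f x‖ ^ 2

/-- The square of the norm of `f` in the form domain. -/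
noncomputable def L (f : ℝ → ℂ) : ℝ := ∫ t : ℝ, Real.log (3 + |t|) * ‖M f (1 / 2 + t * I)‖ ^ 2

/-- The trigonometric polynomials of degree at most `n` on `[-a, a]`: `f` is square integrable, vanishes
off `[-a, a]`, its transform on the critical line is square integrable against the logarithmic weight
(the form domain; this is automatic if `n` is finite), and its Fourier coefficients
`∫ f x exp (i π k x / a)` with `|k| > n` vanish (an empty condition if `n` is infinite). -/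
def InDom (a : ℝ) (n : ℕ∞) (f : ℝ → ℂ) : Prop := MemLp f 2 volume ∧ (∀ x : ℝ, a < |x| → f x = 0) ∧
  (Integrable fun t : ℝ => Real.log (3 + |t|) * ‖M f (1 / 2 + t * I)‖ ^ 2) ∧
  ∀ k : ℤ, n < (k.natAbs : ℕ∞) → M f (1 / 2 + ((Real.pi * k / a : ℝ) : ℂ) * I) = 0

/-- Weil's quadratic form for functions supported in `[-a, a]`: the pole, the archimedean place
and the prime powers `n ≤ exp (2 a)`. -/
noncomputable def W (a : ℝ) (f : ℝ → ℂ) : ℝ :=
  2 * (M f 1 * (starRingEnd ℂ) (M f 0)).re +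
    1 / (2 * Real.pi) * (∫ t : ℝ, ((digamma (1 / 4 + t / 2 * I)).re - Real.log Real.pi) *
      ‖M f (1 / 2 + t * I)‖ ^ 2) -
    2 * ∑ n ∈ Finset.Icc 1 ⌊Real.exp (2 * a)⌋₊, ArithmeticFunction.vonMangoldt n / Real.sqrt n *
      (∫ x : ℝ, f (x + Real.log n) * (starRingEnd ℂ) (f x)).re

/-- The linear combination of the functions `f i` with the coefficients `x i`. -/
def comb {k : ℕ} (f : Fin k → ℝ → ℂ) (x : Fin k → ℂ) : ℝ → ℂ := fun t => ∑ i, x i * f i t

/-- `W a` is at most `r Q` on some space of dimension `k` of trigonometric polynomials of degree at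
most `n`; here `Q` is the square of a norm, `N` or `L`. -/
def AtMost (Q : (ℝ → ℂ) → ℝ) (a : ℝ) (n : ℕ∞) (k : ℕ) (r : ℝ) : Prop := ∃ f : Fin k → ℝ → ℂ, (∀ i, InDom a n (f i)) ∧
  (∀ x : Fin k → ℂ, x ≠ 0 → 0 < Q (comb f x)) ∧ ∀ x : Fin k → ℂ, W a (comb f x) ≤ r * Q (comb f x)

/-- The `k`-th lowest eigenvalue of `W a` with respect to `Q` in degree at most `n`, in the form of
Courant and Fischer. -/
noncomputable def eig (Q : (ℝ → ℂ) → ℝ) (a : ℝ) (n : ℕ∞) (k : ℕ) : ℝ := sInf {r : ℝ | AtMost Q a n k r}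

/-- The zeros of zeta with real part larger than `θ`. -/
def Right (θ : ℝ) : Set ℂ := {s : ℂ | riemannZeta s = 0 ∧ θ < s.re}

/-- The `k`-th largest real part of the distinct zeros to the right of the critical line: the infimum of
the `θ ≥ 1/2` such that fewer than `k` zeros have a real part larger than `θ`. -/
noncomputable def beta (k : ℕ) : ℝ := sInf {θ : ℝ | 1 / 2 ≤ θ ∧ (Right θ).encard < k}

/-- The degree `n` is at least `κ a / log a`. -/
def Large (κ a : ℝ) (n : ℕ∞) : Prop := ((⌈κ * a / Real.log a⌉₊ : ℕ) : ℕ∞) ≤ n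

lemma M_eq (f : ℝ → ℂ) (s : ℂ) : M f s = Y23.TT f (s - 1 / 2) := rfl

lemma M_line (f : ℝ → ℂ) (t : ℝ) : M f (1 / 2 + t * I) = Y23.TT f (t * I) := by
  rw [M_eq]; congr 1; ring

lemma L_eq (f : ℝ → ℂ) : L f = Y23.G.LL f := by
  unfold L Y23.G.LL Y23.G.Lg
  simp only [M_line]

lemma inDom_iff (a : ℝ) (n : ℕ∞) (f : ℝ → ℂ) : InDom a n f ↔ LE.Hn a n f := by
  unfold InDom LE.Hn Y23.Fa Y23.G.Lg LE.nd
  simp only [M_line, and_assoc]

lemma W_eq {a : ℝ} {n : ℕ∞} (ha : 0 < a) {f : ℝ → ℂ} (hf : InDom a n f) : W a f = Y23.G.QQ (D := LE.zz) f := by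
  rw [LE.QQ_zz, Y23.weil ha ((inDom_iff a n f).1 hf).hd]
  have e1 : M f 1 = Y23.TT f (1 / 2) := by rw [M_eq]; congr 1; ring
  have e2 : M f 0 = Y23.TT f (-(1 / 2)) := by rw [M_eq]; congr 1; ring
  unfold W Y23.DG
  simp only [e1, e2, M_line]

lemma inDom_comb {a : ℝ} {n : ℕ∞} {k : ℕ} {f : Fin k → ℝ → ℂ} (hf : ∀ i, InDom a n (f i)) (x : Fin k → ℂ) :
    InDom a n (comb f x) := (inDom_iff _ _ _).2 (LE.Hn_comb (D := LE.zz) (fun i => (inDom_iff _ _ _).1 (hf i)) x)

lemma atMost_iff {a : ℝ} (ha : 0 < a) (n : ℕ∞) (k : ℕ) (r : ℝ) : AtMost N a n k r ↔ LE.Neg (D := LE.zz) a n k r := by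
  unfold AtMost LE.Neg
  constructor
  · rintro ⟨f, h1, h2, h3⟩
    refine ⟨f, fun i => (inDom_iff _ _ _).1 (h1 i), h2, fun x => ?_⟩
    have h4 := h3 x
    rw [W_eq ha (inDom_comb h1 x)] at h4
    exact h4
  · rintro ⟨f, h1, h2, h3⟩
    have h1' : ∀ i, InDom a n (f i) := fun i => (inDom_iff _ _ _).2 (h1 i)
    refine ⟨f, h1', h2, fun x => ?_⟩
    rw [W_eq ha (inDom_comb h1' x)]
    exact h3 x

lemma atMost_iff_L {a : ℝ} (ha : 0 < a) (n : ℕ∞) (k : ℕ) (r : ℝ) : AtMost L a n k r ↔ LE.NegL (D := LE.zz) a n k r := by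
  unfold AtMost LE.NegL
  simp only [L_eq]
  constructor
  · rintro ⟨f, h1, h2, h3⟩
    refine ⟨f, fun i => (inDom_iff _ _ _).1 (h1 i), h2, fun x => ?_⟩
    have h4 := h3 x
    rw [W_eq ha (inDom_comb h1 x)] at h4
    exact h4
  · rintro ⟨f, h1, h2, h3⟩
    have h1' : ∀ i, InDom a n (f i) := fun i => (inDom_iff _ _ _).2 (h1 i)
    refine ⟨f, h1', h2, fun x => ?_⟩
    rw [W_eq ha (inDom_comb h1' x)]
    exact h3 x

lemma eig_eq {a : ℝ} (ha : 0 < a) (n : ℕ∞) (k : ℕ) : eig N a n k = LE.eg (D := LE.zz) a n k := by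
  unfold eig LE.eg
  simp only [atMost_iff ha]

lemma eig_eq_L {a : ℝ} (ha : 0 < a) (n : ℕ∞) (k : ℕ) : eig L a n k = LE.egL (D := LE.zz) a n k := by
  unfold eig LE.egL
  simp only [atMost_iff_L ha]

lemma beta_eq (k : ℕ) : beta k = LE.bet (D := LE.zz) k := by
  unfold beta LE.bet
  congr 1
  ext θ
  constructor
  · rintro ⟨h1, h2⟩
    exact ⟨h1, by rw [LE.Rt_zz h1]; exact h2⟩
  · rintro ⟨h1, h2⟩
    refine ⟨h1, ?_⟩
    rw [LE.Rt_zz h1] at h2
    exact h2

lemma large_iff (κ a : ℝ) (n : ℕ) : Large κ a n ↔ LE.mm κ a ≤ n := by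
  unfold Large LE.mm
  exact Nat.cast_le

lemma half_form {θ κ : ℝ} (hθ : 1 / 2 ≤ θ) (hκ : 0 < κ) : (∀ s : ℂ, riemannZeta s = 0 → s.re ≤ θ) ↔
    ∀ δ : ℝ, 0 < δ → ∀ A : ℝ, ∃ (a : ℝ) (n : ℕ), A ≤ a ∧ Large κ a n ∧
      ∀ f : ℝ → ℂ, InDom a n f → -Real.exp ((2 * θ - 1 + δ) * a) * N f ≤ W a f := by
  have h1 : (∀ s : ℂ, riemannZeta s = 0 → s.re ≤ θ) ↔ ∀ s ∈ LE.zz.Zs, s.re ≤ θ := by
    constructor
    · exact fun h s hs => h s hs.1
    · intro h s hs
      by_contra hc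
      rw [not_le] at hc
      have h2 : s ∈ LE.Rt (D := LE.zz) θ := by rw [LE.Rt_zz hθ]; exact ⟨hs, hc⟩
      exact absurd (h s h2.1) (not_le.2 hc)
  rw [h1, LE.half (D := LE.zz) hθ hκ]
  refine forall_congr' fun δ => imp_congr_right fun hδ => ?_
  constructor
  · intro h A
    obtain ⟨a, n, h2, h3, h4⟩ := h (max A 1)
    have ha : 0 < a := lt_of_lt_of_le one_pos ((le_max_right _ _).trans h2)
    refine ⟨a, n, (le_max_left _ _).trans h2, (large_iff _ _ _).2 h3, fun f hf => ?_⟩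
    rw [W_eq ha hf]
    exact h4 f ((inDom_iff _ _ _).1 hf)
  · intro h A
    obtain ⟨a, n, h2, h3, h4⟩ := h (max A 1)
    have ha : 0 < a := lt_of_lt_of_le one_pos ((le_max_right _ _).trans h2)
    refine ⟨a, n, (le_max_left _ _).trans h2, (large_iff _ _ _).1 h3, fun f hf => ?_⟩
    have hf' : InDom a n f := (inDom_iff _ _ _).2 hf
    rw [← W_eq ha hf']
    exact h4 f hf'

lemma RH_iff : RiemannHypothesis ↔ ∀ s : ℂ, riemannZeta s = 0 → s.re ≤ 1 / 2 := by
  rw [Y23.RH_iff]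
  constructor
  · intro h s hs
    by_cases ht : ∃ n : ℕ, s = -2 * (n + 1)
    · obtain ⟨n, hn⟩ := ht
      rw [hn]
      have : (0 : ℝ) ≤ n := Nat.cast_nonneg n
      simp
      linarith
    · exact (h ⟨s, hs, Y23.zt_of_zero hs ht⟩).le
  · rintro h ⟨s, hs⟩
    have h1 := h s hs.1
    have h2 := h (1 - (starRingEnd ℂ) s) (Y23.isZ_refl hs).1
    have e : (1 - (starRingEnd ℂ) s).re = 1 - s.re := by simp
    rw [e] at h2
    show s.re = 1 / 2
    linarith

lemma quasi_form {κ : ℝ} (hκ : 0 < κ) : (∃ θ : ℝ, θ < 1 ∧ ∀ s : ℂ, riemannZeta s = 0 → s.re ≤ θ) ↔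
    ∃ δ : ℝ, 0 < δ ∧ ∀ A : ℝ, ∃ (a : ℝ) (n : ℕ), A ≤ a ∧ Large κ a n ∧
      ∀ f : ℝ → ℂ, InDom a n f → -Real.exp ((1 - δ) * a) * N f ≤ W a f := by
  constructor
  · rintro ⟨θ, hθ, h⟩
    set θ' := max θ (1 / 2) with hθ'
    have h1 : θ' < 1 := max_lt hθ (by norm_num)
    have h2 : 1 / 2 ≤ θ' := le_max_right _ _
    refine ⟨1 - θ', by linarith, ?_⟩
    have h3 := (half_form h2 hκ).1 (fun s hs => (h s hs).trans (le_max_left _ _)) (1 - θ') (by linarith)
    have e : 2 * θ' - 1 + (1 - θ') = 1 - (1 - θ') := by ring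
    rw [e] at h3
    exact h3
  · rintro ⟨δ, hδ, h⟩
    set δ' := min δ 1 with hδ'
    have h1 : 0 < δ' := lt_min hδ one_pos
    have h2 : δ' ≤ 1 := min_le_right _ _
    have h2' : δ' ≤ δ := min_le_left _ _
    refine ⟨1 - δ' / 2, by linarith, (half_form (by linarith) hκ).2 fun ε hε A => ?_⟩
    obtain ⟨a, n, h3, h4, h5⟩ := h (max A 0)
    refine ⟨a, n, (le_max_left _ _).trans h3, h4, fun f hf => le_trans ?_ (h5 f hf)⟩
    have ha : 0 ≤ a := (le_max_right _ _).trans h3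
    have hN : 0 ≤ N f := Y23.N2_nonneg f
    refine mul_le_mul_of_nonneg_right (neg_le_neg (Real.exp_le_exp.2 ?_)) hN
    refine mul_le_mul_of_nonneg_right ?_ ha
    linarith

theorem result :
    (∀ κ : ℝ, 0 < κ → ((∃ θ : ℝ, θ < 1 ∧ ∀ s : ℂ, riemannZeta s = 0 → s.re ≤ θ) ↔
      ∃ δ : ℝ, 0 < δ ∧ ∀ A : ℝ, ∃ (a : ℝ) (n : ℕ), A ≤ a ∧ Large κ a n ∧
        ∀ f : ℝ → ℂ, InDom a n f → -Real.exp ((1 - δ) * a) * N f ≤ W a f)) ∧
    (∀ θ κ : ℝ, 1 / 2 ≤ θ → 0 < κ → ((∀ s : ℂ, riemannZeta s = 0 → s.re ≤ θ) ↔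
      ∀ δ : ℝ, 0 < δ → ∀ A : ℝ, ∃ (a : ℝ) (n : ℕ), A ≤ a ∧ Large κ a n ∧
        ∀ f : ℝ → ℂ, InDom a n f → -Real.exp ((2 * θ - 1 + δ) * a) * N f ≤ W a f)) ∧
    (∀ (k : ℕ) (κ : ℝ), 1 ≤ k → 0 < κ → 5 * (beta 1 - beta k) < 4 * κ →
      (∀ n : ℝ → ℕ, (∀ᶠ a in atTop, Large κ a (n a)) →
        Tendsto (fun a => Real.log (Real.log (n a)) / a) atTop (nhds 0) →
        Tendsto (fun a => Real.log (max 1 (-eig N a (n a) k)) / a) atTop (nhds (2 * beta k - 1))) ∧
      ∀ n : ℝ → ℕ∞, (∀ᶠ a in atTop, Large κ a (n a)) →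
        Tendsto (fun a => Real.log (max 1 (-eig L a (n a) k)) / a) atTop (nhds (2 * beta k - 1))) ∧
    (∀ k : ℕ, k ≤ (Right (1 / 2)).encard → ∃ δ A : ℝ, 0 < δ ∧ ∀ a : ℝ, A ≤ a → ∀ n : ℕ∞, Large 1 a n →
      AtMost N a n k (-Real.exp (δ * a))) ∧
    (∀ k : ℕ, (Right (1 / 2)).encard < k → ∀ a : ℝ, 0 < a → ∀ (n : ℕ∞) (f : Fin k → ℝ → ℂ), (∀ i, InDom a n (f i)) →
      ∃ x : Fin k → ℂ, x ≠ 0 ∧ 0 ≤ W a (comb f x)) ∧
    ((∀ s : ℂ, riemannZeta s = 0 → s.re ≤ 1 / 2) → ∃ C : ℝ,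
      (∀ (a : ℝ) (n : ℕ) (f : ℝ → ℂ), 1 ≤ a → InDom a n f →
        Real.exp (-(C * (n * Real.log (n + 3)) + Real.exp (C * a))) * N f ≤ W a f) ∧
      ∀ (a : ℝ) (f : ℝ → ℂ), 1 ≤ a → InDom a ⊤ f → Real.exp (-Real.exp (Real.exp (C * a))) * L f ≤ W a f) := by
  refine ⟨fun κ hκ => quasi_form hκ, fun θ κ hθ hκ => half_form hθ hκ,
    fun k κ hk hκ hκβ => ⟨fun n hn hL => ?_, fun n hn => ?_⟩,
    fun k hk => ?_, fun k hk a ha n f hf => ?_, fun hRH => ?_⟩
  · simp only [beta_eq] at hκβ ⊢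
    simp only [large_iff] at hn
    refine (LE.lyap (D := LE.zz) hk hκ hκβ hn hL).congr' ?_
    filter_upwards [eventually_gt_atTop 0] with a ha
    rw [eig_eq ha]
  · simp only [beta_eq] at hκβ ⊢
    refine (LE.lyapL (D := LE.zz) hk hκ hκβ hn).congr' ?_
    filter_upwards [eventually_gt_atTop 0] with a ha
    rw [eig_eq_L ha]
  · have h1 : (k : ℕ∞) ≤ (LE.Rt (D := LE.zz) (1 / 2)).encard := by rw [LE.Rt_zz le_rfl]; exact hk
    have h2 : LE.bet (D := LE.zz) 1 ≤ 1 := by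
      by_contra hc
      rw [not_le] at hc
      have h3 := LE.many_of_lt (D := LE.zz) (k := 1) (θ := 1) (by norm_num) hc
      rw [Nat.cast_one, Set.one_le_encard_iff_nonempty] at h3
      obtain ⟨s, hs1, hs2⟩ := h3
      have : s.re < 1 := hs1.2.2
      linarith
    obtain ⟨δ, hδ, h3⟩ := LE.dir (D := LE.zz) (κ := 1) (θ := 1 / 2) one_pos le_rfl (by linarith) h1
    obtain ⟨A, hA⟩ := eventually_atTop.1 h3
    refine ⟨δ, max A 1, hδ, fun a ha n hn => ?_⟩
    rw [atMost_iff (lt_of_lt_of_le one_pos ((le_max_right _ _).trans ha))]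
    have h4 := hA a ((le_max_left _ _).trans ha) n hn
    have e : 2 * (1 / 2 : ℝ) - 1 + δ = δ := by ring
    rw [e] at h4
    exact h4
  · have h1 : (LE.Rt (D := LE.zz) (1 / 2)).encard < k := by rw [LE.Rt_zz le_rfl]; exact hk
    obtain ⟨x, hx, h2⟩ := LE.index_le (D := LE.zz) (a := a) (ν := n) h1 (f := f) fun i => (inDom_iff _ _ _).1 (hf i)
    refine ⟨x, hx, ?_⟩
    rw [W_eq ha (inDom_comb hf x)]
    exact h2
  · rw [← RH_iff, Y23.RH_iff] at hRH
    obtain ⟨C1, hC1, h1⟩ := LE.rh_lower hRH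
    obtain ⟨C2, hC2, h2⟩ := LE.rh_full hRH
    refine ⟨C1 + C2, fun a n f ha hf => ?_, fun a f ha hf => ?_⟩
    · have ha0 : 0 < a := by linarith
      rw [W_eq ha0 hf]
      refine le_trans (mul_le_mul_of_nonneg_right (Real.exp_le_exp.2 (neg_le_neg ?_)) (Y23.N2_nonneg f))
        (h1 a n f ha ((inDom_iff _ _ _).1 hf))
      have h3 : 0 ≤ (n : ℝ) * Real.log (n + 3) := by
        have hn : (0 : ℝ) ≤ n := Nat.cast_nonneg n
        exact mul_nonneg hn (Real.log_nonneg (by linarith))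
      have h4 : Real.exp (C1 * a) ≤ Real.exp ((C1 + C2) * a) := Real.exp_le_exp.2 (by nlinarith)
      nlinarith
    · have ha0 : 0 < a := by linarith
      rw [W_eq ha0 hf, L_eq]
      refine le_trans (mul_le_mul_of_nonneg_right (Real.exp_le_exp.2 (neg_le_neg ?_)) (Y23.G.LL_nonneg f))
        (h2 a f ha ((inDom_iff _ _ _).1 hf).hd)
      exact Real.exp_le_exp.2 (Real.exp_le_exp.2 (by nlinarith))

end Pool.Agent.Results.MP_5a4862_nt.SpectralDichotomy
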